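import Pool.Agent.H58.FL.TargetsB
import Pool.Agent.H97.FL.TCD

/-!
MP_6a7a6f_gt, board flc_modules, row DV2: divisibility by `j! l!`.
-/

open Topology

namespace Pool.Agent.H5.FL

open Pool.Agent.H58.FL Pool.Agent.H59 Pool.Agent.H48.FR Pool.Agent.H97.FL

noncomputable section

/-- the homomorphism given by `pq` -/
def QQ (j l : ℕ) : Equiv.Perm (Fin j) × Equiv.Perm (Fin l) →* Equiv.Perm (Fin (j + l)) where
  toFun r := pq r.1 r.2
  map_one' := by
    apply Equiv.ext
    intro i
    change finSumFinEquiv (Sum.map id id (finSumFinEquiv.symm i)) = i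
    rw [Sum.map_id_id, id_eq, Equiv.apply_symm_apply]
  map_mul' r s := by
    apply Equiv.ext
    intro i
    change finSumFinEquiv (Sum.map _ _ (finSumFinEquiv.symm i)) =
      finSumFinEquiv (Sum.map _ _ (finSumFinEquiv.symm (finSumFinEquiv
        (Sum.map _ _ (finSumFinEquiv.symm i)))))
    rw [Equiv.symm_apply_apply, Sum.map_map]
    rfl

theorem QQ_inj {j l : ℕ} (r : Equiv.Perm (Fin j) × Equiv.Perm (Fin l)) (h : QQ j l r = 1) :
    r = 1 := by
  have h1 : Equiv.Perm.sumCongrHom (Fin j) (Fin l) r = Equiv.Perm.sumCongrHom (Fin j) (Fin l) 1 := by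
    rw [map_one]
    apply Equiv.ext
    intro x
    have h2 := congrArg (fun e : Equiv.Perm (Fin (j + l)) => e (finSumFinEquiv x)) h
    change finSumFinEquiv (Sum.map _ _ (finSumFinEquiv.symm (finSumFinEquiv x))) =
      finSumFinEquiv x at h2
    rw [Equiv.symm_apply_apply] at h2
    exact finSumFinEquiv.injective h2
  exact Equiv.Perm.sumCongrHom_injective h1

/-- the action on the pairs of cells and permutations -/
@[reducible] def act2 {G : Type} [Group G] {n : ℕ} (Φ : G →* Equiv.Perm (Fin n)) (N : ℕ) :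
    MulAction G ((Fin (2 * n) → Fin N) × Equiv.Perm (Fin (2 * n))) where
  smul r p := (fun i => p.1 ((PP' n (Φ r))⁻¹ i), PP' n (Φ r) * p.2)
  one_smul p := by
    apply Prod.ext
    · change (fun i => p.1 ((PP' n (Φ 1))⁻¹ i)) = p.1
      simp
    · change PP' n (Φ 1) * p.2 = p.2
      simp
  mul_smul r s p := by
    apply Prod.ext
    · change (fun i => p.1 ((PP' n (Φ (r * s)))⁻¹ i)) =
        fun i => p.1 ((PP' n (Φ s))⁻¹ ((PP' n (Φ r))⁻¹ i))
      simp [map_mul]
    · change PP' n (Φ (r * s)) * p.2 = PP' n (Φ r) * (PP' n (Φ s) * p.2)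
      simp [map_mul, mul_assoc]

theorem pf_DV2 (hFRE : T_FRE) : T_DV2 := by
  classical
  intro Y _ j l N H hH
  let _ := act2 (QQ j l) N
  obtain ⟨a, ha⟩ := hFRE (Equiv.Perm (Fin j) × Equiv.Perm (Fin l))
    ((Fin (2 * (j + l)) → Fin N) × Equiv.Perm (Fin (2 * (j + l))))
    (Ch ℤ (2 * (j + l) + 1) Y)
    (fun p => Finsupp.single (H.comp (sx p.1 p.2)) ((Equiv.Perm.sign p.2 : ℤˣ) : ℤ))
    (by
      intro r p h
      have h1 : PP' (j + l) (QQ j l r) * p.2 = p.2 := congrArg Prod.snd h
      have h2 : PP' (j + l) (QQ j l r) = 1 := by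
        simpa using h1
      exact QQ_inj r (pp_inj _ h2))
    (by
      intro r p
      change Finsupp.single (H.comp (sx (fun i => p.1 ((PP' (j + l) (QQ j l r))⁻¹ i))
        (PP' (j + l) (QQ j l r) * p.2))) _ = _
      have h1 : H.comp (sx (fun i => p.1 ((PP' (j + l) (QQ j l r))⁻¹ i))
          (PP' (j + l) (QQ j l r) * p.2)) = H.comp (sx p.1 p.2) := by
        apply ContinuousMap.ext
        intro q
        change H (sx _ _ q) = H (sx _ _ q)
        rw [sx_act]
        have h3 : (QQ j l r)⁻¹ = pq (r⁻¹).1 (r⁻¹).2 := by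
          rw [← map_inv]
          rfl
        rw [h3]
        exact hH _ _ _
      have h2 : Equiv.Perm.sign (PP' (j + l) (QQ j l r) * p.2) = Equiv.Perm.sign p.2 := by
        rw [Equiv.Perm.sign_mul]
        change Equiv.Perm.sign (pp (QQ j l r)) * _ = _
        rw [sign_pp, one_mul]
      rw [h1]
      congr 2)
  refine ⟨a, ?_⟩
  rw [ZZ, ← Finset.sum_product', Finset.univ_product_univ]
  rw [ha, Fintype.card_prod, Fintype.card_perm, Fintype.card_perm, Fintype.card_fin,
    Fintype.card_fin, natCast_zsmul]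

end

end Pool.Agent.H5.FL
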